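import Mathlib

set_option autoImplicit false

namespace Pool.Agent.T6.H64.SM

/-- codes of six symmetric `8 × 8` matrices with entries `0, 1, 2` (base `3`) -/
def code : ℕ → ℕ
  | 0 => 2666004370246751474697199235943
  | 1 => 1375448472356504243711154999675
  | 2 => 2439879405271061330753416280199
  | 3 => 2472895539963374497527644279877
  | 4 => 306300657208372879148711243910
  | _ => 372159014410428760083528723225

/-- entry of the matrix number `k` -/
def ent (k i j : ℕ) : ℕ := code k / 3 ^ (8 * i + j) % 3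

/-- `2 × 2` determinant mod 3 -/
def d2 (a b c d : ℕ) : ℕ := (a * d + 2 * (b * c)) % 3

/-- `4 × 4` determinant mod 3 -/
def d4 (m : ℕ → ℕ → ℕ) (i0 i1 i2 i3 j0 j1 j2 j3 : ℕ) : ℕ :=
  (d2 (m i0 j0) (m i0 j1) (m i1 j0) (m i1 j1) * d2 (m i2 j2) (m i2 j3) (m i3 j2) (m i3 j3)
  + 2 * (d2 (m i0 j0) (m i0 j2) (m i1 j0) (m i1 j2) * d2 (m i2 j1) (m i2 j3) (m i3 j1) (m i3 j3))
  + d2 (m i0 j0) (m i0 j3) (m i1 j0) (m i1 j3) * d2 (m i2 j1) (m i2 j2) (m i3 j1) (m i3 j2)
  + d2 (m i0 j1) (m i0 j2) (m i1 j1) (m i1 j2) * d2 (m i2 j0) (m i2 j3) (m i3 j0) (m i3 j3)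
  + 2 * (d2 (m i0 j1) (m i0 j3) (m i1 j1) (m i1 j3) * d2 (m i2 j0) (m i2 j2) (m i3 j0) (m i3 j2))
  + d2 (m i0 j2) (m i0 j3) (m i1 j2) (m i1 j3) * d2 (m i2 j0) (m i2 j1) (m i3 j0) (m i3 j1)) % 3

/-- the check: for all increasing `i0 < i1 < i2 < i3`, `j0 < j1 < j2 < j3` one of the six
determinants is not `0` mod 3 -/
def chk : Bool :=
  (List.range 8).all fun i3 => (List.range i3).all fun i2 => (List.range i2).all fun i1 =>
  (List.range i1).all fun i0 => (List.range 8).all fun j3 => (List.range j3).all fun j2 =>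
  (List.range j2).all fun j1 => (List.range j1).all fun j0 => (List.range 6).any fun k =>
    d4 (ent k) i0 i1 i2 i3 j0 j1 j2 j3 != 0

set_option maxRecDepth 100000 in
theorem chk_true : chk = true := by decide +kernel

end Pool.Agent.T6.H64.SM
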