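import Pool.Agent.T6.H64.SM.Chk

set_option autoImplicit false

namespace Pool.Agent.T6.H64.SM

/-- the eight vectors (with a zero as fourth coordinate) over `F_3` -/
def V : Fin 8 → Fin 4 → ZMod 3 :=
  ![![1, 1, 1, 0], ![1, 1, 2, 0], ![1, 2, 1, 0], ![1, 2, 2, 0], ![1, 0, 1, 0], ![1, 0, 2, 0],
    ![1, 1, 0, 0], ![1, 2, 0, 0]]

/-- the Gram matrix -/
def G (i j : Fin 8) : ZMod 3 := ∑ k, V i k * V j k

/-- the six matrices -/
def Nm (k : Fin 6) (i j : Fin 8) : ZMod 3 := (ent k i j : ZMod 3)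

/-- the zero pattern -/
def zz (i j : Fin 8) : Bool :=
  (i == j && decide ((i : ℕ) < 4)) || [(0, 5), (0, 7), (1, 4), (1, 7), (2, 5), (2, 6), (3, 4), (3, 6), (4, 5), (6, 7),
    (5, 0), (7, 0), (4, 1), (7, 1), (5, 2), (6, 2), (4, 3), (6, 3), (5, 4), (7, 6)].contains (i, j)

theorem G_zero : ∀ i j, G i j = 0 ↔ zz i j = true := by
  decide +kernel

theorem G_comm (i j : Fin 8) : G i j = G j i := by
  unfold G
  exact Finset.sum_congr rfl fun k _ => mul_comm _ _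

theorem ent_zero : ∀ k : Fin 6, ∀ i j : Fin 8, zz i j = true → ent k i j = 0 := by
  decide +kernel

theorem ent_comm : ∀ k : Fin 6, ∀ i j : Fin 8, ent k i j = ent k j i := by
  decide +kernel

theorem Nm_comm (k : Fin 6) (i j : Fin 8) : Nm k i j = Nm k j i := by
  unfold Nm
  rw [ent_comm]

theorem Nm_zero (k : Fin 6) (i j : Fin 8) (h : G i j = 0) : Nm k i j = 0 := by
  unfold Nm
  rw [ent_zero k i j ((G_zero i j).1 h)]
  rfl

theorem det4 {R : Type*} [CommRing R] (M : Matrix (Fin 4) (Fin 4) R) : M.det =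
    (M 0 0 * M 1 1 - M 0 1 * M 1 0) * (M 2 2 * M 3 3 - M 2 3 * M 3 2)
    - (M 0 0 * M 1 2 - M 0 2 * M 1 0) * (M 2 1 * M 3 3 - M 2 3 * M 3 1)
    + (M 0 0 * M 1 3 - M 0 3 * M 1 0) * (M 2 1 * M 3 2 - M 2 2 * M 3 1)
    + (M 0 1 * M 1 2 - M 0 2 * M 1 1) * (M 2 0 * M 3 3 - M 2 3 * M 3 0)
    - (M 0 1 * M 1 3 - M 0 3 * M 1 1) * (M 2 0 * M 3 2 - M 2 2 * M 3 0)
    + (M 0 2 * M 1 3 - M 0 3 * M 1 2) * (M 2 0 * M 3 1 - M 2 1 * M 3 0) := by
  rw [Matrix.det_succ_row_zero, Fin.sum_univ_four]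
  simp only [Matrix.det_fin_three, Matrix.submatrix_apply]
  have e00 : (0 : Fin 4).succAbove (0 : Fin 3) = 1 := rfl
  have e01 : (0 : Fin 4).succAbove (1 : Fin 3) = 2 := rfl
  have e02 : (0 : Fin 4).succAbove (2 : Fin 3) = 3 := rfl
  have e10 : (1 : Fin 4).succAbove (0 : Fin 3) = 0 := rfl
  have e11 : (1 : Fin 4).succAbove (1 : Fin 3) = 2 := rfl
  have e12 : (1 : Fin 4).succAbove (2 : Fin 3) = 3 := rfl
  have e20 : (2 : Fin 4).succAbove (0 : Fin 3) = 0 := rfl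
  have e21 : (2 : Fin 4).succAbove (1 : Fin 3) = 1 := rfl
  have e22 : (2 : Fin 4).succAbove (2 : Fin 3) = 3 := rfl
  have e30 : (3 : Fin 4).succAbove (0 : Fin 3) = 0 := rfl
  have e31 : (3 : Fin 4).succAbove (1 : Fin 3) = 1 := rfl
  have e32 : (3 : Fin 4).succAbove (2 : Fin 3) = 2 := rfl
  have s0 : (0 : Fin 3).succ = (1 : Fin 4) := rfl
  have s1 : (1 : Fin 3).succ = (2 : Fin 4) := rfl
  have s2 : (2 : Fin 3).succ = (3 : Fin 4) := rfl
  have v0 : ((0 : Fin 4) : ℕ) = 0 := rfl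
  have v1 : ((1 : Fin 4) : ℕ) = 1 := rfl
  have v2 : ((2 : Fin 4) : ℕ) = 2 := rfl
  have v3 : ((3 : Fin 4) : ℕ) = 3 := rfl
  simp only [e00, e01, e02, e10, e11, e12, e20, e21, e22, e30, e31, e32, s0, s1, s2, v0, v1, v2,
    v3]
  ring

theorem d2_cast (a b c d : ℕ) : ((d2 a b c d : ℕ) : ZMod 3) = (a : ZMod 3) * d - b * c := by
  unfold d2
  rw [ZMod.natCast_mod]
  push_cast
  have h2 : (2 : ZMod 3) = -1 := by decide
  rw [h2]
  ring

theorem d4_cast (m : ℕ → ℕ → ℕ) (i0 i1 i2 i3 j0 j1 j2 j3 : ℕ) :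
    ((d4 m i0 i1 i2 i3 j0 j1 j2 j3 : ℕ) : ZMod 3) =
      (Matrix.of fun a b : Fin 4 => ((m (![i0, i1, i2, i3] a) (![j0, j1, j2, j3] b) : ℕ) : ZMod 3)).det := by
  rw [det4]
  unfold d4
  rw [ZMod.natCast_mod]
  push_cast
  simp only [d2_cast]
  have h2 : (2 : ZMod 3) = -1 := by decide
  rw [h2]
  simp only [Matrix.of_apply, Matrix.cons_val]
  ring

theorem d4_lt (m : ℕ → ℕ → ℕ) (i0 i1 i2 i3 j0 j1 j2 j3 : ℕ) :
    d4 m i0 i1 i2 i3 j0 j1 j2 j3 < 3 := Nat.mod_lt _ (by norm_num)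

/-- increasing version -/
theorem det_mono (I J : Fin 4 → Fin 8) (hI : StrictMono I) (hJ : StrictMono J) :
    ∃ k : Fin 6, (Matrix.of fun a b => Nm k (I a) (J b)).det ≠ 0 := by
  have h := chk_true
  simp only [chk, List.all_eq_true, List.mem_range, List.any_eq_true, bne_iff_ne, ne_eq] at h
  have i01 : (I 0 : ℕ) < I 1 := hI (by decide)
  have i12 : (I 1 : ℕ) < I 2 := hI (by decide)
  have i23 : (I 2 : ℕ) < I 3 := hI (by decide)
  have j01 : (J 0 : ℕ) < J 1 := hJ (by decide)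
  have j12 : (J 1 : ℕ) < J 2 := hJ (by decide)
  have j23 : (J 2 : ℕ) < J 3 := hJ (by decide)
  obtain ⟨k, hk, h0⟩ := h _ (I 3).2 _ i23 _ i12 _ i01 _ (J 3).2 _ j23 _ j12 _ j01
  refine ⟨⟨k, hk⟩, ?_⟩
  have h1 := d4_cast (ent k) (I 0) (I 1) (I 2) (I 3) (J 0) (J 1) (J 2) (J 3)
  have h2 : (Matrix.of fun a b => Nm ⟨k, hk⟩ (I a) (J b)) =
      (Matrix.of fun a b : Fin 4 => ((ent k (![(I 0 : ℕ), I 1, I 2, I 3] a)
        (![(J 0 : ℕ), J 1, J 2, J 3] b) : ℕ) : ZMod 3)) := by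
    ext a b
    fin_cases a <;> fin_cases b <;> rfl
  rw [h2, ← h1]
  intro h3
  rw [ZMod.natCast_eq_zero_iff] at h3
  exact h0 (Nat.eq_zero_of_dvd_of_lt h3 (d4_lt _ _ _ _ _ _ _ _ _))

/-- injective version -/
theorem det_inj (I J : Fin 4 → Fin 8) (hI : Function.Injective I) (hJ : Function.Injective J) :
    ∃ k : Fin 6, (Matrix.of fun a b => Nm k (I a) (J b)).det ≠ 0 := by
  have hI2 : StrictMono (I ∘ Tuple.sort I) :=
    (Tuple.monotone_sort I).strictMono_of_injective (hI.comp (Tuple.sort I).injective)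
  have hJ2 : StrictMono (J ∘ Tuple.sort J) :=
    (Tuple.monotone_sort J).strictMono_of_injective (hJ.comp (Tuple.sort J).injective)
  obtain ⟨k, hk⟩ := det_mono _ _ hI2 hJ2
  refine ⟨k, fun h0 => hk ?_⟩
  have h1 : (Matrix.of fun a b => Nm k ((I ∘ Tuple.sort I) a) ((J ∘ Tuple.sort J) b)) =
      ((Matrix.of fun a b => Nm k (I a) (J b)).submatrix (Tuple.sort I) id).submatrix id
        (Tuple.sort J) := by
    ext a b
    rfl
  rw [h1, Matrix.det_permute', Matrix.det_permute, h0]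
  simp

/-- the Gram determinants vanish -/
theorem gram_det (I J : Fin 4 → Fin 8) : (Matrix.of fun a b => G (I a) (J b)).det = 0 := by
  have h1 : (Matrix.of fun a b => G (I a) (J b)) =
      (Matrix.of fun a k => V (I a) k) * (Matrix.of fun k b => V (J b) k) := by
    ext a b
    rw [Matrix.mul_apply]
    rfl
  rw [h1, Matrix.det_mul]
  have h2 : (Matrix.of fun a k => V (I a) k).det = 0 := by
    refine Matrix.det_eq_zero_of_column_eq_zero 3 fun a => ?_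
    have : ∀ i, V i 3 = 0 := by decide
    exact this _
  rw [h2, zero_mul]

end Pool.Agent.T6.H64.SM
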